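import Pool.Agent.R546.EM.Kern

/-!
# Editing to graphs without induced `C₄` and `2 K₂` has a polynomial kernel
-/

namespace Pool.Agent.Results.MP_2df4ce_lc.EditingKernel

open Pool.Agent.R546.EM

/-- The edge editing problem for the two forbidden induced subgraphs `C₄` and `2 K₂` has a
polynomial kernel. -/
theorem result : HasPolyKernel Mode.editing {C4, twoK2} := kernel

end Pool.Agent.Results.MP_2df4ce_lc.EditingKernel
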